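import Pool.Agent.Q72.AL.Stm3
import Pool.Agent.Q230.AL.CHAIN

/-!
# Project AL (MP_f0209c_nt): the lemma CHAINW
-/

set_option autoImplicit false

open Complex MeasureTheory Filter Topology Set
open H345 (Zo aa XX)

namespace Pool.Agent.Q230.AL

open Pool.Agent.Q72.AL

noncomputable section

theorem chainw (h1 : J_EF) (h2 : J_DIFF) (h3 : J_N2) (h4 : J_MV) (h5 : J_DDB) (h6 : J_DDC)
    (h7 : J_WT) : J_CHAINW := by
  intro hRH a
  obtain ⟨C0, Xe, hC0, hEF⟩ := h1 hRH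
  obtain ⟨C1, hC1, hDIFF⟩ := h2 hRH a C0 hC0
  obtain ⟨C2, X2, hC2, hN2⟩ := h3 hRH a C0 hC0
  obtain ⟨C3, hC3, hMV⟩ := h4
  obtain ⟨C4, hC4, hDDB⟩ := h5
  obtain ⟨hwt, hwc, hW0, -⟩ := h7
  refine ⟨C3 + (W0 * C4 + 2 * C3 + 16 * C1 ^ 2 * C2 + 4), by positivity, ?_⟩
  intro δ c hδ hδ1 hc hc1
  obtain ⟨Xd, hD⟩ := hDIFF c hc hc1
  refine ⟨max (max Xe X2) (max Xd (max 1 (1 / δ ^ 2))), ?_⟩
  intro X hXX0 hH
  simp only [max_le_iff] at hXX0
  obtain ⟨⟨hXe, hX2⟩, hXd, hX1, hXδ⟩ := hXX0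
  obtain ⟨Z, hZ⟩ := hEF X hXe hH.simple
  have hX0 : 0 < X := by linarith
  have hsq : 0 < Real.sqrt X := Real.sqrt_pos.2 hX0
  have hr : 1 / Real.sqrt X ≤ δ := by
    rw [div_le_iff₀ hsq]
    have h8 : 1 / δ ≤ Real.sqrt X := by
      refine Real.le_sqrt_of_sq_le ?_
      rw [div_pow, one_pow]
      exact hXδ
    rw [div_le_iff₀ hδ] at h8
    linarith
  have hXi : 1 / X ≤ δ := by
    have h8 : 1 / X ≤ 1 / Real.sqrt X := by
      refine one_div_le_one_div_of_le hsq ?_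
      rw [Real.sqrt_le_left (by linarith)]
      nlinarith
    linarith
  have hLX : Real.sqrt (Real.log X) / X ≤ δ := by
    have h8 : Real.sqrt (Real.log X) ≤ Real.sqrt X :=
      Real.sqrt_le_sqrt (by linarith [Real.log_le_sub_one_of_pos hX0])
    have h9 : Real.sqrt (Real.log X) / X ≤ Real.sqrt X / X := by gcongr
    have h10 : Real.sqrt X / X = 1 / Real.sqrt X := by
      rw [div_eq_div_iff hX0.ne' hsq.ne', one_mul, Real.mul_self_sqrt hX0.le]
    linarith
  set K : ℝ := 2 * Real.pi * Real.exp (2 * a) with hK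
  set f : ℝ → ℝ := fun T => ‖DD 2 (Real.log (c * X)) T‖ with hf
  set g : ℝ → ℝ := fun T => ‖DD 2 (Real.log (K / c) + Real.log (T / X)) T‖ with hg
  have hXX : X ≤ 2 * X := by linarith
  have hDc := (h6 2 (by norm_num) (by norm_num)).1
  have hfc : Continuous f := by
    have h8 : Continuous (fun T : ℝ => ((Real.log (c * X), T) : ℝ × ℝ)) := by fun_prop
    exact (hDc.comp h8).norm
  have hgc : ContinuousOn g (uIcc X (2 * X)) := by
    have h8 : ContinuousOn (fun T : ℝ => ((Real.log (K / c) + Real.log (T / X), T) : ℝ × ℝ))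
        (uIcc X (2 * X)) := by
      rw [uIcc_of_le hXX]
      refine ContinuousOn.prodMk ?_ continuousOn_id
      refine continuousOn_const.add (ContinuousOn.log (by fun_prop) ?_)
      intro T hT
      have : 0 < T := lt_of_lt_of_le hX0 hT.1
      positivity
    exact (hDc.comp_continuousOn h8).norm
  have hwX : ContinuousOn (fun T : ℝ => wt (T / X)) (uIcc X (2 * X)) := by
    rw [uIcc_of_le hXX]
    refine hwc.comp (by fun_prop) ?_
    intro T hT
    have : 0 < T := lt_of_lt_of_le hX0 hT.1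
    exact div_pos this hX0
  have hwb : ∀ T ∈ Icc X (2 * X), 0 ≤ wt (T / X) ∧ wt (T / X) ≤ 1 := by
    intro T hT
    refine hwt _ ⟨?_, ?_⟩
    · rw [le_div_iff₀ hX0]; linarith [hT.1]
    · rw [div_le_iff₀ hX0]; exact hT.2
  -- integrals
  have If : IntervalIntegrable (fun T => wt (T / X) * f T ^ 2) volume X (2 * X) :=
    (hwX.mul (hfc.pow 2).continuousOn).intervalIntegrable
  have Ig : IntervalIntegrable (fun T => wt (T / X) * g T ^ 2) volume X (2 * X) :=
    (hwX.mul (hgc.pow 2)).intervalIntegrable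
  have IN : IntervalIntegrable (fun T => wt (T / X) * N2 Z T) volume X (2 * X) :=
    (hwX.mul (N2_cont Z).continuousOn).intervalIntegrable
  have Iw : IntervalIntegrable (fun T => wt (T / X)) volume X (2 * X) :=
    hwX.intervalIntegrable
  have hIw : ∫ T in X..(2 * X), wt (T / X) ≤ X := by
    have h8 : ∫ T in X..(2 * X), wt (T / X) ≤ ∫ _T in X..(2 * X), (1 : ℝ) :=
      intervalIntegral.integral_mono_on hXX Iw intervalIntegrable_const fun T hT => (hwb T hT).2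
    have h9 : ∫ _T in X..(2 * X), (1 : ℝ) = X := by
      rw [intervalIntegral.integral_const, smul_eq_mul]
      ring
    linarith
  have hIN : ∫ T in X..(2 * X), wt (T / X) * N2 Z T ≤ C2 * X := hN2 X δ hX2 hδ hδ1 hH Z hZ
  have hIf := hMV 2 (Real.log (c * X)) X (by norm_num) (by norm_num) hX1
  have hcX : 0 < c * X := mul_pos hc hX0
  have he1 : Real.exp (Real.log (c * X)) = c * X := Real.exp_log hcX
  have he2 : Real.exp (2 * Real.log (c * X)) = (c * X) ^ 2 := by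
    rw [two_mul, Real.exp_add, he1]; ring
  rw [he1, he2] at hIf
  have hIf' : |(∫ T in X..(2 * X), wt (T / X) * f T ^ 2) - X * W0 * AA 2 (Real.log (c * X))| ≤
      C3 * (c * X + (c * X) ^ 2) / X := hIf
  have hq : C3 * (c * X + (c * X) ^ 2) / X = C3 * (c + c ^ 2 * X) := by
    field_simp
  rw [hq] at hIf'
  have hAA : AA 2 (Real.log (c * X)) ≤ C4 :=
    (hDDB 2 (Real.log (c * X)) (by norm_num) (by norm_num)).2.2.2.2.2.1
  set F : ℝ := ∫ T in X..(2 * X), wt (T / X) * f T ^ 2 with hF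
  set G : ℝ := ∫ T in X..(2 * X), wt (T / X) * g T ^ 2 with hG
  have hFle : F ≤ X * (W0 * C4 + 2 * C3) := by
    have h8 := (abs_le.1 hIf').2
    have h9 : X * W0 * AA 2 (Real.log (c * X)) ≤ X * W0 * C4 := by gcongr
    have h10 : c + c ^ 2 * X ≤ 2 * X := by
      have : c ^ 2 ≤ 1 := by nlinarith
      nlinarith
    have h11 : C3 * (c + c ^ 2 * X) ≤ C3 * (2 * X) := by gcongr
    nlinarith
  -- the comparison
  have hFG : |F - G| ≤ X * (δ * (W0 * C4 + 2 * C3 + 16 * C1 ^ 2 * C2 + 4)) := by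
    have h8 : F - G = ∫ T in X..(2 * X), (wt (T / X) * f T ^ 2 - wt (T / X) * g T ^ 2) :=
      (intervalIntegral.integral_sub If Ig).symm
    have h9 : |F - G| ≤ ∫ T in X..(2 * X), |wt (T / X) * f T ^ 2 - wt (T / X) * g T ^ 2| := by
      rw [h8]
      exact intervalIntegral.abs_integral_le_integral_abs hXX
    have Ib : IntervalIntegrable (fun T => δ * (wt (T / X) * f T ^ 2) +
        (16 * C1 ^ 2 * δ * (wt (T / X) * N2 Z T) + 4 * δ * wt (T / X))) volume X (2 * X) :=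
      (If.const_mul _).add ((IN.const_mul _).add (Iw.const_mul _))
    have h10 : ∫ T in X..(2 * X), |wt (T / X) * f T ^ 2 - wt (T / X) * g T ^ 2| ≤
        ∫ T in X..(2 * X), (δ * (wt (T / X) * f T ^ 2) +
        (16 * C1 ^ 2 * δ * (wt (T / X) * N2 Z T) + 4 * δ * wt (T / X))) := by
      refine intervalIntegral.integral_mono_on hXX (If.sub Ig).abs Ib fun T hT => ?_
      have h11 := hD X δ hXd hδ hδ1 hH Z hZ T hT.1 hT.2
      have h12 := ptw (f := f T) (g := g T) hC1 hδ hδ1 (Real.sqrt_nonneg (N2 Z T))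
        (by positivity : (0 : ℝ) ≤ 1 / Real.sqrt X) (norm_nonneg _) hr hLX h11
      rw [Real.sq_sqrt (N2_nonneg Z T)] at h12
      rw [← mul_sub, abs_mul, abs_of_nonneg (hwb T hT).1]
      have h13 := mul_le_mul_of_nonneg_left h12 (hwb T hT).1
      refine h13.trans (le_of_eq ?_)
      ring
    have h14 : ∫ T in X..(2 * X), (δ * (wt (T / X) * f T ^ 2) +
        (16 * C1 ^ 2 * δ * (wt (T / X) * N2 Z T) + 4 * δ * wt (T / X))) =
        δ * F + (16 * C1 ^ 2 * δ * (∫ T in X..(2 * X), wt (T / X) * N2 Z T) +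
          4 * δ * ∫ T in X..(2 * X), wt (T / X)) := by
      rw [intervalIntegral.integral_add (If.const_mul _) ((IN.const_mul _).add (Iw.const_mul _)),
        intervalIntegral.integral_add (IN.const_mul _) (Iw.const_mul _),
        intervalIntegral.integral_const_mul, intervalIntegral.integral_const_mul,
        intervalIntegral.integral_const_mul]
    have h15 : δ * F ≤ δ * (X * (W0 * C4 + 2 * C3)) := by gcongr
    have h16 : 16 * C1 ^ 2 * δ * (∫ T in X..(2 * X), wt (T / X) * N2 Z T) ≤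
        16 * C1 ^ 2 * δ * (C2 * X) := by gcongr
    have h17 : 4 * δ * (∫ T in X..(2 * X), wt (T / X)) ≤ 4 * δ * X := by gcongr
    have h18 : X * (δ * (W0 * C4 + 2 * C3 + 16 * C1 ^ 2 * C2 + 4)) =
      δ * (X * (W0 * C4 + 2 * C3)) + (16 * C1 ^ 2 * δ * (C2 * X) + 4 * δ * X) := by ring
    rw [h18]
    linarith
  -- conclusion
  have h20 : |X * W0 * AA 2 (Real.log (c * X)) - G| ≤
      X * ((C3 + (W0 * C4 + 2 * C3 + 16 * C1 ^ 2 * C2 + 4)) * (c ^ 2 + δ)) := by
    have h21 : |X * W0 * AA 2 (Real.log (c * X)) - G| ≤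
        |X * W0 * AA 2 (Real.log (c * X)) - F| + |F - G| := abs_sub_le _ _ _
    rw [abs_sub_comm _ F] at h21
    have h22 : C3 * (c + c ^ 2 * X) ≤ X * (C3 * (c ^ 2 + δ)) := by
      have h23 : 1 ≤ δ * X := by
        rw [div_le_iff₀ hX0] at hXi
        exact hXi
      have h24 : c + c ^ 2 * X ≤ X * (c ^ 2 + δ) := by nlinarith
      calc C3 * (c + c ^ 2 * X) ≤ C3 * (X * (c ^ 2 + δ)) := by gcongr
        _ = X * (C3 * (c ^ 2 + δ)) := by ring
    have h25 : X * (δ * (W0 * C4 + 2 * C3 + 16 * C1 ^ 2 * C2 + 4)) ≤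
        X * ((W0 * C4 + 2 * C3 + 16 * C1 ^ 2 * C2 + 4) * (c ^ 2 + δ)) := by
      have h26 : 0 ≤ W0 * C4 + 2 * C3 + 16 * C1 ^ 2 * C2 + 4 := by positivity
      have h27 : δ * (W0 * C4 + 2 * C3 + 16 * C1 ^ 2 * C2 + 4) ≤
          (W0 * C4 + 2 * C3 + 16 * C1 ^ 2 * C2 + 4) * (c ^ 2 + δ) := by
        nlinarith [mul_nonneg h26 (sq_nonneg c)]
      exact mul_le_mul_of_nonneg_left h27 hX0.le
    have h28 : X * ((C3 + (W0 * C4 + 2 * C3 + 16 * C1 ^ 2 * C2 + 4)) * (c ^ 2 + δ)) =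
        X * (C3 * (c ^ 2 + δ)) + X * ((W0 * C4 + 2 * C3 + 16 * C1 ^ 2 * C2 + 4) * (c ^ 2 + δ)) := by
      ring
    rw [h28]
    linarith
  have h30 : W0 * AA 2 (Real.log (c * X)) - 1 / X * G =
      1 / X * (X * W0 * AA 2 (Real.log (c * X)) - G) := by
    field_simp
  have h31 : |W0 * AA 2 (Real.log (c * X)) - 1 / X * G| ≤
      (C3 + (W0 * C4 + 2 * C3 + 16 * C1 ^ 2 * C2 + 4)) * (c ^ 2 + δ) := by
    rw [h30, abs_mul, abs_of_pos (by positivity : (0 : ℝ) < 1 / X)]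
    calc 1 / X * |X * W0 * AA 2 (Real.log (c * X)) - G|
        ≤ 1 / X * (X * ((C3 + (W0 * C4 + 2 * C3 + 16 * C1 ^ 2 * C2 + 4)) * (c ^ 2 + δ))) := by
          gcongr
      _ = (C3 + (W0 * C4 + 2 * C3 + 16 * C1 ^ 2 * C2 + 4)) * (c ^ 2 + δ) := by
          field_simp
  exact h31

end

end Pool.Agent.Q230.AL
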